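import Pool.Agent.CUBF.Loc

/-! The two cases of the descent (MP_c16a21, type B, Pythagorean ratios). -/

set_option autoImplicit false

namespace Pool.Agent.CUBF

open Pool.Agent.CUBD Pool.Agent.CUBE

/-- The criterion for the pair `A`, `C`, where `C² = A² + B²`. -/
def CritB (A B C : ℤ) : Prop :=
  ∀ H K D : ℤ, 0 < H → 0 < K → 0 < D → H ∣ A → K ∣ C → D ∣ B →
    (∀ p : ℕ, p.Prime → p % 4 = 1 → (p : ℤ) ∣ B → IsSquare ((K * H : ℤ) : ZMod p)) →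
    (D % 2 = 1 → H % 2 = 1 →
      (∀ p : ℕ, p.Prime → p ≠ 2 → (p : ℤ) ∣ A → IsSquare ((K * (1 * D) : ℤ) : ZMod p)) →
      (∀ p : ℕ, p.Prime → (p : ℤ) ∣ C → IsSquare ((H * (1 * D) : ℤ) : ZMod p)) →
      (A % 2 = 1 → (K % 8 = H % 8 ∨ K % 8 = (-H) % 8) ∧ D % 4 = K % 4) →
      (A % 2 = 0 → K % 8 = D % 8) → H = 1 ∧ K = 1 ∧ D = 1) ∧
    (A % 2 = 1 → D % 2 = 1 →
      (∀ p : ℕ, p.Prime → p ≠ 2 → (p : ℤ) ∣ A → IsSquare ((K * (2 * D) : ℤ) : ZMod p)) →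
      (∀ p : ℕ, p.Prime → (p : ℤ) ∣ C → IsSquare ((H * (2 * D) : ℤ) : ZMod p)) →
      (K % 8 = H % 8 ∨ K % 8 = (-H) % 8) → D % 4 = K % 4 → H = A ∧ K = C) ∧
    (A % 2 = 0 → (A / H) % 2 = 1 →
      (∀ p : ℕ, p.Prime → p ≠ 2 → (p : ℤ) ∣ A → IsSquare ((K * (1 * D) : ℤ) : ZMod p)) →
      (∀ p : ℕ, p.Prime → (p : ℤ) ∣ C → IsSquare ((H * (1 * D) : ℤ) : ZMod p)) →
      D % 8 = (K + H) % 8 → H = A ∧ K = C)

/-- The data of the pair. -/
structure Dat (A B C : ℤ) : Prop where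
  hA : 0 < A
  hB : 0 < B
  hCp : 0 < C
  hABC : A ^ 2 + B ^ 2 = C ^ 2
  hpar : A % 2 = 1 ∧ B % 4 = 0 ∨ A % 4 = 0 ∧ B % 2 = 1
  hA16 : ¬ (16 : ℤ) ∣ A
  hC4 : ∀ p : ℕ, p.Prime → (p : ℤ) ∣ C → p % 4 = 1
  hcop : ∀ p : ℕ, p.Prime → (p : ℤ) ∣ A → (p : ℤ) ∣ C → False
  hcrit : CritB A B C

lemma Dat.oddC {A B C : ℤ} (d : Dat A B C) : C % 2 = 1 := by
  by_contra hne
  have h2 : ((2 : ℕ) : ℤ) ∣ C := by push_cast; omega
  have := d.hC4 2 Nat.prime_two h2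
  omega

lemma oddpart (K P H M z : ℤ) (h : K * P ^ 2 = H * M ^ 2 + 8 * z) (hH : H % 2 = 1)
    (hM : M % 2 = 1) : K % 8 = H % 8 := by
  have hM2 := sq_odd M hM
  have h1 : (H * M ^ 2) % 8 = H % 8 := by rw [Int.mul_emod, hM2]; omega
  have h2 : (K * P ^ 2) % 8 = H % 8 := by rw [h]; omega
  have hPo : P % 2 = 1 := by
    by_contra hne
    have h6 : P % 2 = 0 := by omega
    have h7 : (K * P ^ 2) % 2 = 0 := by
      rw [Int.mul_emod, pow_two, Int.mul_emod P P, h6]; simp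
    omega
  have hP2 := sq_odd P hPo
  have h3 : (K * P ^ 2) % 8 = K % 8 := by rw [Int.mul_emod, hP2]; omega
  rw [← h3]; exact h2

lemma gcd_su {A s t u : ℤ} (hst : Int.gcd s t = 1) (h1 : t ^ 2 + A ^ 2 * s ^ 2 = u ^ 2) :
    Int.gcd s u = 1 := by
  by_contra hne
  obtain ⟨p, hp1, d1, d2⟩ := prime_of_gcd hne
  have hpp : Prime (p : ℤ) := Nat.prime_iff_prime_int.mp hp1
  have d4 : (p : ℤ) ∣ t ^ 2 := by
    have h3 : t ^ 2 = u ^ 2 - A ^ 2 * s ^ 2 := by linarith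
    rw [h3]
    exact dvd_sub (dvd_pow d2 two_ne_zero) (dvd_mul_of_dvd_right (dvd_pow d1 two_ne_zero) _)
  exact no_common hst p hp1 d1 (hpp.dvd_of_dvd_pow d4)

/-- `4 ∣ x` or `4 ∣ y` when `8 ∣ E x y`, `E` odd, `x`, `y` of opposite parity. -/
lemma four_or (E x y r : ℤ) (hE : E % 2 = 1) (h : E * (x * y) = 8 * r)
    (hpar : x % 2 = 0 ∧ y % 2 = 1 ∨ x % 2 = 1 ∧ y % 2 = 0) :
    (∃ x', x = 4 * x') ∧ y % 2 = 1 ∨ (∃ y', y = 4 * y') ∧ x % 2 = 1 := by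
  rcases hpar with ⟨hx, hy⟩ | ⟨hx, hy⟩
  · left
    have h5 : (E * y) % 2 = 1 := by rw [Int.mul_emod, hE, hy]; norm_num
    have h6 : (4 : ℤ) ∣ (E * y) * x := ⟨2 * r, by linear_combination h⟩
    exact ⟨(coprime_four h5).dvd_of_dvd_mul_left h6, hy⟩
  · right
    have h5 : (E * x) % 2 = 1 := by rw [Int.mul_emod, hE, hx]; norm_num
    have h6 : (4 : ℤ) ∣ (E * x) * y := ⟨2 * r, by linear_combination h⟩
    exact ⟨(coprime_four h5).dvd_of_dvd_mul_left h6, hx⟩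

/-- `t` odd, `s` even. -/
lemma p1core {A B C s t u v : ℤ} (d : Dat A B C) (hs : 0 < s)
    (hst : Int.gcd s t = 1) (hu : 0 < u) (hv : 0 < v) (hse : s % 2 = 0)
    (h1 : t ^ 2 + A ^ 2 * s ^ 2 = u ^ 2) (h2 : t ^ 2 + C ^ 2 * s ^ 2 = v ^ 2) :
    ∃ m n p' q' g : ℤ, 0 < m ∧ 0 < n ∧ 0 < p' ∧ 0 < q' ∧ 0 < g ∧
      u + t = 2 * m ^ 2 ∧ u - t = 2 * n ^ 2 ∧ v + t = 2 * p' ^ 2 ∧ v - t = 2 * q' ^ 2 ∧
      v + u = 2 * g ^ 2 := by
  have hto : t % 2 = 1 := by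
    by_contra hne
    have h2t : (2 : ℤ) ∣ t := by omega
    have h2s : (2 : ℤ) ∣ s := by omega
    have := Int.dvd_coe_gcd h2s h2t
    rw [hst] at this
    omega
  have hCo := d.oddC
  have h3 : u ^ 2 + B ^ 2 * s ^ 2 = v ^ 2 := by
    rw [← h1, ← h2, ← d.hABC]; ring
  obtain ⟨H, a1, m, n, hH0, ha1, hHt, hHo, hm, hn, hmn, k3, k4, hasn, hparm⟩ :=
    param_odd A s t u d.hA hs hto hst hu h1
  obtain ⟨K, c1, p', q', hK0, hc1, hKt, hKo, hp', hq', hpq, k5, k6, hcsn, hparp⟩ :=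
    param_odd C s t v d.hCp hs hto hst hv h2
  have huo : u % 2 = 1 := by omega
  have hvo : v % 2 = 1 := by omega
  obtain ⟨D, b1, g, h, hD0, hb1, hDu, hDo, hg, hh, hgh, k1, k2, hbsn, hparg⟩ :=
    param_odd B s u v d.hB hs huo (gcd_su hst h1) hv h3
  have hs4 : s % 4 = 0 := by
    by_contra hne
    have h4 : s % 4 = 2 := by omega
    have h5 := sq_two s h4
    have h6 : (C ^ 2 * s ^ 2) % 8 = 4 := by
      rw [Int.mul_emod, sq_odd C hCo, show s ^ 2 % 8 = 4 by omega]; norm_num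
    have h7 := sq_odd v hvo
    have h8 := sq_odd t hto
    omega
  obtain ⟨s', hs'⟩ : (4 : ℤ) ∣ s := by omega
  obtain ⟨L1, L2, L3⟩ := locals 2 1 A B C s t u v H K D m n p' q' g h (Or.inr rfl) h1 h2 h3
    (by rw [one_mul]; exact k1) (by rw [one_mul]; exact k2) k3 k4 k5 k6 d.hC4
    (fun p hp _ d1 d2 => no_common hgh p hp d1 d2) (fun p hp _ d1 d2 => no_common hmn p hp d1 d2)
  have hcr := (d.hcrit H K D hH0 hK0 hD0 ⟨a1, ha1⟩ ⟨c1, hc1⟩ ⟨b1, hb1⟩ L3).1 hDo hHo L1 L2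
  have hc1' : A % 2 = 1 → (K % 8 = H % 8 ∨ K % 8 = (-H) % 8) ∧ D % 4 = K % 4 := by
    intro hAo
    have hB4 : B % 4 = 0 := by rcases d.hpar with h4 | h4 <;> omega
    obtain ⟨B', hB'⟩ : (4 : ℤ) ∣ B := by omega
    have hpr : D * (g * h) = 8 * (B' * s') := by
      have h4 : D * (b1 * s) = B * s := by rw [hb1]; ring
      rw [hbsn, hB', hs'] at h4
      linarith
    have hmn2 : (m ^ 2 + n ^ 2) % 4 = 1 := by
      rcases hparm with ⟨e1, e2⟩ | ⟨e1, e2⟩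
      · have e3 := sq_odd n e2
        have e4 : m ^ 2 % 4 = 0 := by
          obtain ⟨r, hr⟩ : (2 : ℤ) ∣ m := by omega
          rw [hr]; ring_nf; omega
        omega
      · have e3 := sq_odd m e1
        have e4 : n ^ 2 % 4 = 0 := by
          obtain ⟨r, hr⟩ : (2 : ℤ) ∣ n := by omega
          rw [hr]; ring_nf; omega
        omega
    have hHmn : (H * (m ^ 2 + n ^ 2)) % 4 = H % 4 := by rw [Int.mul_emod, hmn2]; omega
    rcases four_or D g h _ hDo hpr hparg with ⟨⟨z, hz⟩, hho⟩ | ⟨⟨z, hz⟩, hgo⟩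
    · -- `g = 4 z`, `v ≡ -u`
      have e1 : v + u = 32 * (D * z ^ 2) := by rw [k1, hz]; ring
      have hKH : K % 8 = (-H) % 8 := by
        rcases hparm with ⟨_, e2⟩ | ⟨e2, _⟩
        · exact oddpart K p' (-H) n (2 * (D * z ^ 2)) (by linarith) (by omega) e2
        · exact oddpart K q' (-H) m (2 * (D * z ^ 2)) (by linarith) (by omega) e2
      refine ⟨Or.inr hKH, ?_⟩
      have h5 : D * h ^ 2 = -(H * (m ^ 2 + n ^ 2)) + 16 * (D * z ^ 2) := by linarith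
      have h6 := sq_odd h hho
      have h7 : (D * h ^ 2) % 4 = D % 4 := by
        rw [Int.mul_emod, show h ^ 2 % 4 = 1 by omega]; omega
      omega
    · have e1 : v - u = 32 * (D * z ^ 2) := by rw [k2, hz]; ring
      have hKH : K % 8 = H % 8 := by
        rcases hparm with ⟨_, e2⟩ | ⟨e2, _⟩
        · exact oddpart K q' H n (2 * (D * z ^ 2)) (by linarith) hHo e2
        · exact oddpart K p' H m (2 * (D * z ^ 2)) (by linarith) hHo e2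
      refine ⟨Or.inl hKH, ?_⟩
      have h5 : D * g ^ 2 = H * (m ^ 2 + n ^ 2) + 16 * (D * z ^ 2) := by linarith
      have h6 := sq_odd g hgo
      have h7 : (D * g ^ 2) % 4 = D % 4 := by
        rw [Int.mul_emod, show g ^ 2 % 4 = 1 by omega]; omega
      omega
  have hc2' : A % 2 = 0 → K % 8 = D % 8 := by
    intro hAe
    have hA4 : A % 4 = 0 := by rcases d.hpar with h4 | h4 <;> omega
    obtain ⟨A', hA'⟩ : (4 : ℤ) ∣ A := by omega
    have hpr : H * (m * n) = 8 * (A' * s') := by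
      have h4 : H * (a1 * s) = A * s := by rw [ha1]; ring
      rw [hasn, hA', hs'] at h4
      linarith
    rcases four_or H m n _ hHo hpr hparm with ⟨⟨z, hz⟩, _⟩ | ⟨⟨z, hz⟩, _⟩
    · -- `m = 4 z`, `u ≡ -t`
      have e1 : u + t = 32 * (H * z ^ 2) := by rw [k3, hz]; ring
      rcases hparg with ⟨_, e2⟩ | ⟨e2, _⟩
      · exact oddpart K p' D h (2 * (H * z ^ 2)) (by linarith) hDo e2
      · exact oddpart K q' D g (-(2 * (H * z ^ 2))) (by linarith) hDo e2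
    · have e1 : u - t = 32 * (H * z ^ 2) := by rw [k4, hz]; ring
      rcases hparg with ⟨_, e2⟩ | ⟨e2, _⟩
      · exact oddpart K q' D h (2 * (H * z ^ 2)) (by linarith) hDo e2
      · exact oddpart K p' D g (-(2 * (H * z ^ 2))) (by linarith) hDo e2
  obtain ⟨hH1, hK1, hD1⟩ := hcr hc1' hc2'
  rw [hH1, one_mul] at k3 k4
  rw [hK1, one_mul] at k5 k6
  rw [hD1, one_mul] at k1
  exact ⟨m, n, p', q', g, hm, hn, hp', hq', hg, k3, k4, k5, k6, k1⟩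

end Pool.Agent.CUBF
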