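import Pool.Agent.CUBF.Core
import Pool.Agent.CUBE.Ex

/-! Examples (MP_c16a21, type B, Pythagorean ratios). -/

set_option autoImplicit false

namespace Pool.Agent.CUBF

open Pool.Agent.CUBD Pool.Agent.CUBE

lemma crit_5_12 : CritB 5 12 13 := by
  intro H K D hH hK hD hHA hKC hDB cB
  obtain ⟨H', hH', rfl⟩ := dvd_cases 5 H hH (by exact_mod_cast hHA) (by norm_num)
  obtain ⟨K', hK', rfl⟩ := dvd_cases 13 K hK (by exact_mod_cast hKC) (by norm_num)
  obtain ⟨D', hD', rfl⟩ := dvd_cases 12 D hD (by exact_mod_cast hDB) (by norm_num)
  have e1 : Nat.divisors 5 = {1, 5} := by decide +kernel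
  rw [e1] at hH'
  have e2 : Nat.divisors 13 = {1, 13} := by decide +kernel
  rw [e2] at hK'
  have e3 : Nat.divisors 12 = {1, 2, 3, 4, 6, 12} := by decide +kernel
  rw [e3] at hD'
  clear cB hHA hKC hDB hH hK hD
  simp only [Finset.mem_insert, Finset.mem_singleton] at hH' hK' hD'
  refine ⟨?_, ?_, ?_⟩
  · intro hDo hHo cA cC m1 m2
    have qA0 := cA 5 (by norm_num) (by norm_num) (by norm_num)
    have qC0 := cC 13 (by norm_num) (by norm_num)
    clear cA cC
    rcases hH' with rfl | rfl <;>
      rcases hK' with rfl | rfl <;>
      rcases hD' with rfl | rfl | rfl | rfl | rfl | rfl <;>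
      first
      | (exfalso; revert hDo; decide +kernel)
      | (exfalso; revert hHo; decide +kernel)
      | (exfalso; revert m1; decide +kernel)
      | (exfalso; revert qA0; decide +kernel)
      | (exfalso; revert qC0; decide +kernel)
      | (norm_num; done)
  · intro hAo hDo cA cC m1 m2
    have qA0 := cA 5 (by norm_num) (by norm_num) (by norm_num)
    have qC0 := cC 13 (by norm_num) (by norm_num)
    clear cA cC
    rcases hH' with rfl | rfl <;>
      rcases hK' with rfl | rfl <;>
      rcases hD' with rfl | rfl | rfl | rfl | rfl | rfl <;>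
      first
      | (exfalso; revert hDo; decide +kernel)
      | (exfalso; revert m1; decide +kernel)
      | (exfalso; revert m2; decide +kernel)
      | (exfalso; revert qA0; decide +kernel)
      | (exfalso; revert qC0; decide +kernel)
      | (norm_num; done)
  · intro hAe
    norm_num at hAe

lemma dat_5_12 : Dat 5 12 13 where
  hA := by norm_num
  hB := by norm_num
  hCp := by norm_num
  hABC := by norm_num
  hpar := by norm_num
  hA16 := by norm_num
  hC4 := by
    intro p hp hd
    have hd' : p ∣ 13 := by exact_mod_cast hd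
    have hm : p ∈ Nat.primeFactors 13 := Nat.mem_primeFactors.mpr ⟨hp, hd', by norm_num⟩
    have e : Nat.primeFactors 13 = {13} := by decide +kernel
    rw [e] at hm
    simp only [Finset.mem_insert, Finset.mem_singleton] at hm
    subst hm; norm_num
  hcop := by
    intro p hp h1 h2
    have h1' : p ∣ 5 := by exact_mod_cast h1
    have h2' : p ∣ 13 := by exact_mod_cast h2
    have h3 := Nat.dvd_gcd h1' h2'
    have e : Nat.gcd 5 13 = 1 := by norm_num
    rw [e] at h3
    exact hp.one_lt.ne' (Nat.dvd_one.mp h3)
  hcrit := crit_5_12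

lemma crit_12_5 : CritB 12 5 13 := by
  intro H K D hH hK hD hHA hKC hDB cB
  have qB0 := cB 5 (by norm_num) (by norm_num) (by norm_num)
  obtain ⟨H', hH', rfl⟩ := dvd_cases 12 H hH (by exact_mod_cast hHA) (by norm_num)
  obtain ⟨K', hK', rfl⟩ := dvd_cases 13 K hK (by exact_mod_cast hKC) (by norm_num)
  obtain ⟨D', hD', rfl⟩ := dvd_cases 5 D hD (by exact_mod_cast hDB) (by norm_num)
  have e1 : Nat.divisors 12 = {1, 2, 3, 4, 6, 12} := by decide +kernel
  rw [e1] at hH'
  have e2 : Nat.divisors 13 = {1, 13} := by decide +kernel
  rw [e2] at hK'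
  have e3 : Nat.divisors 5 = {1, 5} := by decide +kernel
  rw [e3] at hD'
  clear cB hHA hKC hDB hH hK hD
  simp only [Finset.mem_insert, Finset.mem_singleton] at hH' hK' hD'
  refine ⟨?_, ?_, ?_⟩
  · intro hDo hHo cA cC m1 m2
    have qA0 := cA 3 (by norm_num) (by norm_num) (by norm_num)
    have qC0 := cC 13 (by norm_num) (by norm_num)
    clear cA cC
    rcases hH' with rfl | rfl | rfl | rfl | rfl | rfl <;>
      rcases hK' with rfl | rfl <;>
      rcases hD' with rfl | rfl <;>
      first
      | (exfalso; revert hDo; decide +kernel)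
      | (exfalso; revert hHo; decide +kernel)
      | (exfalso; revert m2; decide +kernel)
      | (exfalso; revert qB0; decide +kernel)
      | (exfalso; revert qA0; decide +kernel)
      | (exfalso; revert qC0; decide +kernel)
      | (norm_num; done)
  · intro hAo
    norm_num at hAo
  · intro hAe hAH cA cC m1
    have qA0 := cA 3 (by norm_num) (by norm_num) (by norm_num)
    have qC0 := cC 13 (by norm_num) (by norm_num)
    clear cA cC
    rcases hH' with rfl | rfl | rfl | rfl | rfl | rfl <;>
      rcases hK' with rfl | rfl <;>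
      rcases hD' with rfl | rfl <;>
      first
      | (exfalso; revert hAH; decide +kernel)
      | (exfalso; revert m1; decide +kernel)
      | (exfalso; revert qB0; decide +kernel)
      | (exfalso; revert qA0; decide +kernel)
      | (exfalso; revert qC0; decide +kernel)
      | (norm_num; done)

lemma dat_12_5 : Dat 12 5 13 where
  hA := by norm_num
  hB := by norm_num
  hCp := by norm_num
  hABC := by norm_num
  hpar := by norm_num
  hA16 := by norm_num
  hC4 := by
    intro p hp hd
    have hd' : p ∣ 13 := by exact_mod_cast hd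
    have hm : p ∈ Nat.primeFactors 13 := Nat.mem_primeFactors.mpr ⟨hp, hd', by norm_num⟩
    have e : Nat.primeFactors 13 = {13} := by decide +kernel
    rw [e] at hm
    simp only [Finset.mem_insert, Finset.mem_singleton] at hm
    subst hm; norm_num
  hcop := by
    intro p hp h1 h2
    have h1' : p ∣ 12 := by exact_mod_cast h1
    have h2' : p ∣ 13 := by exact_mod_cast h2
    have h3 := Nat.dvd_gcd h1' h2'
    have e : Nat.gcd 12 13 = 1 := by norm_num
    rw [e] at h3
    exact hp.one_lt.ne' (Nat.dvd_one.mp h3)
  hcrit := crit_12_5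

lemma crit_143_24 : CritB 143 24 145 := by
  intro H K D hH hK hD hHA hKC hDB cB
  obtain ⟨H', hH', rfl⟩ := dvd_cases 143 H hH (by exact_mod_cast hHA) (by norm_num)
  obtain ⟨K', hK', rfl⟩ := dvd_cases 145 K hK (by exact_mod_cast hKC) (by norm_num)
  obtain ⟨D', hD', rfl⟩ := dvd_cases 24 D hD (by exact_mod_cast hDB) (by norm_num)
  have e1 : Nat.divisors 143 = {1, 11, 13, 143} := by decide +kernel
  rw [e1] at hH'
  have e2 : Nat.divisors 145 = {1, 5, 29, 145} := by decide +kernel
  rw [e2] at hK'
  have e3 : Nat.divisors 24 = {1, 2, 3, 4, 6, 8, 12, 24} := by decide +kernel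
  rw [e3] at hD'
  clear cB hHA hKC hDB hH hK hD
  simp only [Finset.mem_insert, Finset.mem_singleton] at hH' hK' hD'
  refine ⟨?_, ?_, ?_⟩
  · intro hDo hHo cA cC m1 m2
    have qA0 := cA 11 (by norm_num) (by norm_num) (by norm_num)
    have qA1 := cA 13 (by norm_num) (by norm_num) (by norm_num)
    have qC0 := cC 5 (by norm_num) (by norm_num)
    have qC1 := cC 29 (by norm_num) (by norm_num)
    clear cA cC
    rcases hH' with rfl | rfl | rfl | rfl <;>
      rcases hK' with rfl | rfl | rfl | rfl <;>
      rcases hD' with rfl | rfl | rfl | rfl | rfl | rfl | rfl | rfl <;>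
      first
      | (exfalso; revert hDo; decide +kernel)
      | (exfalso; revert hHo; decide +kernel)
      | (exfalso; revert m1; decide +kernel)
      | (exfalso; revert qA0; decide +kernel)
      | (exfalso; revert qA1; decide +kernel)
      | (exfalso; revert qC0; decide +kernel)
      | (exfalso; revert qC1; decide +kernel)
      | (norm_num; done)
  · intro hAo hDo cA cC m1 m2
    have qA0 := cA 11 (by norm_num) (by norm_num) (by norm_num)
    have qA1 := cA 13 (by norm_num) (by norm_num) (by norm_num)
    have qC0 := cC 5 (by norm_num) (by norm_num)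
    have qC1 := cC 29 (by norm_num) (by norm_num)
    clear cA cC
    rcases hH' with rfl | rfl | rfl | rfl <;>
      rcases hK' with rfl | rfl | rfl | rfl <;>
      rcases hD' with rfl | rfl | rfl | rfl | rfl | rfl | rfl | rfl <;>
      first
      | (exfalso; revert hDo; decide +kernel)
      | (exfalso; revert m1; decide +kernel)
      | (exfalso; revert m2; decide +kernel)
      | (exfalso; revert qA0; decide +kernel)
      | (exfalso; revert qA1; decide +kernel)
      | (exfalso; revert qC0; decide +kernel)
      | (exfalso; revert qC1; decide +kernel)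
      | (norm_num; done)
  · intro hAe
    norm_num at hAe

lemma dat_143_24 : Dat 143 24 145 where
  hA := by norm_num
  hB := by norm_num
  hCp := by norm_num
  hABC := by norm_num
  hpar := by norm_num
  hA16 := by norm_num
  hC4 := by
    intro p hp hd
    have hd' : p ∣ 145 := by exact_mod_cast hd
    have hm : p ∈ Nat.primeFactors 145 := Nat.mem_primeFactors.mpr ⟨hp, hd', by norm_num⟩
    have e : Nat.primeFactors 145 = {5, 29} := by decide +kernel
    rw [e] at hm
    simp only [Finset.mem_insert, Finset.mem_singleton] at hm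
    rcases hm with rfl | rfl <;> norm_num
  hcop := by
    intro p hp h1 h2
    have h1' : p ∣ 143 := by exact_mod_cast h1
    have h2' : p ∣ 145 := by exact_mod_cast h2
    have h3 := Nat.dvd_gcd h1' h2'
    have e : Nat.gcd 143 145 = 1 := by norm_num
    rw [e] at h3
    exact hp.one_lt.ne' (Nat.dvd_one.mp h3)
  hcrit := crit_143_24

lemma crit_24_143 : CritB 24 143 145 := by
  intro H K D hH hK hD hHA hKC hDB cB
  have qB0 := cB 13 (by norm_num) (by norm_num) (by norm_num)
  obtain ⟨H', hH', rfl⟩ := dvd_cases 24 H hH (by exact_mod_cast hHA) (by norm_num)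
  obtain ⟨K', hK', rfl⟩ := dvd_cases 145 K hK (by exact_mod_cast hKC) (by norm_num)
  obtain ⟨D', hD', rfl⟩ := dvd_cases 143 D hD (by exact_mod_cast hDB) (by norm_num)
  have e1 : Nat.divisors 24 = {1, 2, 3, 4, 6, 8, 12, 24} := by decide +kernel
  rw [e1] at hH'
  have e2 : Nat.divisors 145 = {1, 5, 29, 145} := by decide +kernel
  rw [e2] at hK'
  have e3 : Nat.divisors 143 = {1, 11, 13, 143} := by decide +kernel
  rw [e3] at hD'
  clear cB hHA hKC hDB hH hK hD
  simp only [Finset.mem_insert, Finset.mem_singleton] at hH' hK' hD'
  refine ⟨?_, ?_, ?_⟩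
  · intro hDo hHo cA cC m1 m2
    have qA0 := cA 3 (by norm_num) (by norm_num) (by norm_num)
    have qC0 := cC 5 (by norm_num) (by norm_num)
    have qC1 := cC 29 (by norm_num) (by norm_num)
    clear cA cC
    rcases hH' with rfl | rfl | rfl | rfl | rfl | rfl | rfl | rfl <;>
      rcases hK' with rfl | rfl | rfl | rfl <;>
      rcases hD' with rfl | rfl | rfl | rfl <;>
      first
      | (exfalso; revert hDo; decide +kernel)
      | (exfalso; revert hHo; decide +kernel)
      | (exfalso; revert m2; decide +kernel)
      | (exfalso; revert qB0; decide +kernel)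
      | (exfalso; revert qA0; decide +kernel)
      | (exfalso; revert qC0; decide +kernel)
      | (exfalso; revert qC1; decide +kernel)
      | (norm_num; done)
  · intro hAo
    norm_num at hAo
  · intro hAe hAH cA cC m1
    have qA0 := cA 3 (by norm_num) (by norm_num) (by norm_num)
    have qC0 := cC 5 (by norm_num) (by norm_num)
    have qC1 := cC 29 (by norm_num) (by norm_num)
    clear cA cC
    rcases hH' with rfl | rfl | rfl | rfl | rfl | rfl | rfl | rfl <;>
      rcases hK' with rfl | rfl | rfl | rfl <;>
      rcases hD' with rfl | rfl | rfl | rfl <;>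
      first
      | (exfalso; revert hAH; decide +kernel)
      | (exfalso; revert m1; decide +kernel)
      | (exfalso; revert qB0; decide +kernel)
      | (exfalso; revert qA0; decide +kernel)
      | (exfalso; revert qC0; decide +kernel)
      | (exfalso; revert qC1; decide +kernel)
      | (norm_num; done)

lemma dat_24_143 : Dat 24 143 145 where
  hA := by norm_num
  hB := by norm_num
  hCp := by norm_num
  hABC := by norm_num
  hpar := by norm_num
  hA16 := by norm_num
  hC4 := by
    intro p hp hd
    have hd' : p ∣ 145 := by exact_mod_cast hd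
    have hm : p ∈ Nat.primeFactors 145 := Nat.mem_primeFactors.mpr ⟨hp, hd', by norm_num⟩
    have e : Nat.primeFactors 145 = {5, 29} := by decide +kernel
    rw [e] at hm
    simp only [Finset.mem_insert, Finset.mem_singleton] at hm
    rcases hm with rfl | rfl <;> norm_num
  hcop := by
    intro p hp h1 h2
    have h1' : p ∣ 24 := by exact_mod_cast h1
    have h2' : p ∣ 145 := by exact_mod_cast h2
    have h3 := Nat.dvd_gcd h1' h2'
    have e : Nat.gcd 24 145 = 1 := by norm_num
    rw [e] at h3
    exact hp.one_lt.ne' (Nat.dvd_one.mp h3)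
  hcrit := crit_24_143

lemma crit_221_60 : CritB 221 60 229 := by
  intro H K D hH hK hD hHA hKC hDB cB
  have qB0 := cB 5 (by norm_num) (by norm_num) (by norm_num)
  obtain ⟨H', hH', rfl⟩ := dvd_cases 221 H hH (by exact_mod_cast hHA) (by norm_num)
  obtain ⟨K', hK', rfl⟩ := dvd_cases 229 K hK (by exact_mod_cast hKC) (by norm_num)
  obtain ⟨D', hD', rfl⟩ := dvd_cases 60 D hD (by exact_mod_cast hDB) (by norm_num)
  have e1 : Nat.divisors 221 = {1, 13, 17, 221} := by decide +kernel
  rw [e1] at hH'
  have e2 : Nat.divisors 229 = {1, 229} := by decide +kernel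
  rw [e2] at hK'
  have e3 : Nat.divisors 60 = {1, 2, 3, 4, 5, 6, 10, 12, 15, 20, 30, 60} := by decide +kernel
  rw [e3] at hD'
  clear cB hHA hKC hDB hH hK hD
  simp only [Finset.mem_insert, Finset.mem_singleton] at hH' hK' hD'
  refine ⟨?_, ?_, ?_⟩
  · intro hDo hHo cA cC m1 m2
    have qA0 := cA 13 (by norm_num) (by norm_num) (by norm_num)
    have qA1 := cA 17 (by norm_num) (by norm_num) (by norm_num)
    have qC0 := cC 229 (by norm_num) (by norm_num)
    clear cA cC
    rcases hH' with rfl | rfl | rfl | rfl <;>
      rcases hK' with rfl | rfl <;>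
      rcases hD' with rfl | rfl | rfl | rfl | rfl | rfl | rfl | rfl | rfl | rfl | rfl | rfl <;>
      first
      | (exfalso; revert hDo; decide +kernel)
      | (exfalso; revert hHo; decide +kernel)
      | (exfalso; revert m1; decide +kernel)
      | (exfalso; revert qB0; decide +kernel)
      | (exfalso; revert qA0; decide +kernel)
      | (exfalso; revert qA1; decide +kernel)
      | (exfalso; revert qC0; decide +kernel)
      | (norm_num; done)
  · intro hAo hDo cA cC m1 m2
    have qA0 := cA 13 (by norm_num) (by norm_num) (by norm_num)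
    have qA1 := cA 17 (by norm_num) (by norm_num) (by norm_num)
    have qC0 := cC 229 (by norm_num) (by norm_num)
    clear cA cC
    rcases hH' with rfl | rfl | rfl | rfl <;>
      rcases hK' with rfl | rfl <;>
      rcases hD' with rfl | rfl | rfl | rfl | rfl | rfl | rfl | rfl | rfl | rfl | rfl | rfl <;>
      first
      | (exfalso; revert hDo; decide +kernel)
      | (exfalso; revert m1; decide +kernel)
      | (exfalso; revert m2; decide +kernel)
      | (exfalso; revert qB0; decide +kernel)
      | (exfalso; revert qA0; decide +kernel)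
      | (exfalso; revert qA1; decide +kernel)
      | (exfalso; revert qC0; decide +kernel)
      | (norm_num; done)
  · intro hAe
    norm_num at hAe

lemma dat_221_60 : Dat 221 60 229 where
  hA := by norm_num
  hB := by norm_num
  hCp := by norm_num
  hABC := by norm_num
  hpar := by norm_num
  hA16 := by norm_num
  hC4 := by
    intro p hp hd
    have hd' : p ∣ 229 := by exact_mod_cast hd
    have hm : p ∈ Nat.primeFactors 229 := Nat.mem_primeFactors.mpr ⟨hp, hd', by norm_num⟩
    have e : Nat.primeFactors 229 = {229} := by decide +kernel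
    rw [e] at hm
    simp only [Finset.mem_insert, Finset.mem_singleton] at hm
    subst hm; norm_num
  hcop := by
    intro p hp h1 h2
    have h1' : p ∣ 221 := by exact_mod_cast h1
    have h2' : p ∣ 229 := by exact_mod_cast h2
    have h3 := Nat.dvd_gcd h1' h2'
    have e : Nat.gcd 221 229 = 1 := by norm_num
    rw [e] at h3
    exact hp.one_lt.ne' (Nat.dvd_one.mp h3)
  hcrit := crit_221_60

lemma crit_60_221 : CritB 60 221 229 := by
  intro H K D hH hK hD hHA hKC hDB cB
  have qB0 := cB 13 (by norm_num) (by norm_num) (by norm_num)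
  have qB1 := cB 17 (by norm_num) (by norm_num) (by norm_num)
  obtain ⟨H', hH', rfl⟩ := dvd_cases 60 H hH (by exact_mod_cast hHA) (by norm_num)
  obtain ⟨K', hK', rfl⟩ := dvd_cases 229 K hK (by exact_mod_cast hKC) (by norm_num)
  obtain ⟨D', hD', rfl⟩ := dvd_cases 221 D hD (by exact_mod_cast hDB) (by norm_num)
  have e1 : Nat.divisors 60 = {1, 2, 3, 4, 5, 6, 10, 12, 15, 20, 30, 60} := by decide +kernel
  rw [e1] at hH'
  have e2 : Nat.divisors 229 = {1, 229} := by decide +kernel
  rw [e2] at hK'
  have e3 : Nat.divisors 221 = {1, 13, 17, 221} := by decide +kernel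
  rw [e3] at hD'
  clear cB hHA hKC hDB hH hK hD
  simp only [Finset.mem_insert, Finset.mem_singleton] at hH' hK' hD'
  refine ⟨?_, ?_, ?_⟩
  · intro hDo hHo cA cC m1 m2
    have qA0 := cA 3 (by norm_num) (by norm_num) (by norm_num)
    have qA1 := cA 5 (by norm_num) (by norm_num) (by norm_num)
    have qC0 := cC 229 (by norm_num) (by norm_num)
    clear cA cC
    rcases hH' with rfl | rfl | rfl | rfl | rfl | rfl | rfl | rfl | rfl | rfl | rfl | rfl <;>
      rcases hK' with rfl | rfl <;>
      rcases hD' with rfl | rfl | rfl | rfl <;>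
      first
      | (exfalso; revert hDo; decide +kernel)
      | (exfalso; revert hHo; decide +kernel)
      | (exfalso; revert m2; decide +kernel)
      | (exfalso; revert qB0; decide +kernel)
      | (exfalso; revert qB1; decide +kernel)
      | (exfalso; revert qA0; decide +kernel)
      | (exfalso; revert qA1; decide +kernel)
      | (exfalso; revert qC0; decide +kernel)
      | (norm_num; done)
  · intro hAo
    norm_num at hAo
  · intro hAe hAH cA cC m1
    have qA0 := cA 3 (by norm_num) (by norm_num) (by norm_num)
    have qA1 := cA 5 (by norm_num) (by norm_num) (by norm_num)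
    have qC0 := cC 229 (by norm_num) (by norm_num)
    clear cA cC
    rcases hH' with rfl | rfl | rfl | rfl | rfl | rfl | rfl | rfl | rfl | rfl | rfl | rfl <;>
      rcases hK' with rfl | rfl <;>
      rcases hD' with rfl | rfl | rfl | rfl <;>
      first
      | (exfalso; revert hAH; decide +kernel)
      | (exfalso; revert m1; decide +kernel)
      | (exfalso; revert qB0; decide +kernel)
      | (exfalso; revert qB1; decide +kernel)
      | (exfalso; revert qA0; decide +kernel)
      | (exfalso; revert qA1; decide +kernel)
      | (exfalso; revert qC0; decide +kernel)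
      | (norm_num; done)

lemma dat_60_221 : Dat 60 221 229 where
  hA := by norm_num
  hB := by norm_num
  hCp := by norm_num
  hABC := by norm_num
  hpar := by norm_num
  hA16 := by norm_num
  hC4 := by
    intro p hp hd
    have hd' : p ∣ 229 := by exact_mod_cast hd
    have hm : p ∈ Nat.primeFactors 229 := Nat.mem_primeFactors.mpr ⟨hp, hd', by norm_num⟩
    have e : Nat.primeFactors 229 = {229} := by decide +kernel
    rw [e] at hm
    simp only [Finset.mem_insert, Finset.mem_singleton] at hm
    subst hm; norm_num
  hcop := by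
    intro p hp h1 h2
    have h1' : p ∣ 60 := by exact_mod_cast h1
    have h2' : p ∣ 229 := by exact_mod_cast h2
    have h3 := Nat.dvd_gcd h1' h2'
    have e : Nat.gcd 60 229 = 1 := by norm_num
    rw [e] at h3
    exact hp.one_lt.ne' (Nat.dvd_one.mp h3)
  hcrit := crit_60_221

end Pool.Agent.CUBF
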