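import Pool.Agent.CUBF.Core
import Pool.Agent.CUBE.A

/-! `t` even, and the descent (MP_c16a21, type B, Pythagorean ratios). -/

set_option autoImplicit false

namespace Pool.Agent.CUBF

open Pool.Agent.CUBD Pool.Agent.CUBE

/-- `t` even, `s` odd. -/
lemma p2core {A B C s t u v : ℤ} (d : Dat A B C) (hB16 : B % 2 = 1 ∨ A % 2 = 1) (hs : 0 < s)
    (ht : 0 < t)
    (hst : Int.gcd s t = 1) (hu : 0 < u) (hv : 0 < v) (hso : s % 2 = 1) (ht4 : t % 4 = 0)
    (h1 : t ^ 2 + A ^ 2 * s ^ 2 = u ^ 2) (h2 : t ^ 2 + C ^ 2 * s ^ 2 = v ^ 2) :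
    ∃ P Q : ℤ, 0 < P ∧ 0 < Q ∧ A ∣ t ∧ C ∣ t ∧ v + t = C * P ^ 2 ∧ v - t = C * Q ^ 2 ∧
      s = P * Q := by
  have hCo := d.oddC
  have h3 : u ^ 2 + B ^ 2 * s ^ 2 = v ^ 2 := by
    rw [← h1, ← h2, ← d.hABC]; ring
  obtain ⟨H, a1, M, N, hH0, ha1, hHt, ha1o, hM, hN, hMo, hNo, hMN, k3, k4, hasn⟩ :=
    param_even A s t u d.hA hs ht hso ht4 d.hA16 hst hu h1
  obtain ⟨K, c1, P, Q, hK0, hc1, hKt, hc1o, hP, hQ, hPo, hQo, hPQ, k5, k6, hcsn⟩ :=
    param_even C s t v d.hCp hs ht hso ht4 (fun h => by omega) hst hv h2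
  have hM2 := sq_odd M hMo
  have hN2 := sq_odd N hNo
  have hP2 := sq_odd P hPo
  have hQ2 := sq_odd Q hQo
  have hKo : K % 2 = 1 := by
    by_contra hne
    have h6 : K % 2 = 0 := by omega
    have h7 : C % 2 = 0 := by rw [hc1]; simp [Int.mul_emod, h6]
    omega
  have hgoal : H = A ∧ K = C := by
    rcases d.hpar with ⟨hAo, hB4⟩ | ⟨hA4, hBo⟩
    · -- `A` odd
      have hHo : H % 2 = 1 := by
        by_contra hne
        have h6 : H % 2 = 0 := by omega
        have h7 : A % 2 = 0 := by rw [ha1]; simp [Int.mul_emod, h6]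
        omega
      have hHM : (H * M ^ 2) % 4 = H % 4 := by
        rw [Int.mul_emod, show M ^ 2 % 4 = 1 by omega]; omega
      have huo : u % 2 = 1 := by omega
      obtain ⟨D, b1, g, h, hD0, hb1, hDu, hDo, hg, hh, hgh, k1, k2, hbsn, hparg⟩ :=
        param_odd B s u v d.hB hs huo (gcd_su hst h1) hv h3
      obtain ⟨L1, L2, L3⟩ := locals 1 2 A B C s t u v H K D M N P Q g h (Or.inl rfl) h1 h2 h3
        (by rw [k1]; ring) (by rw [k2]; ring) (by rw [one_mul]; exact k3)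
        (by rw [one_mul]; exact k4) (by rw [one_mul]; exact k5) (by rw [one_mul]; exact k6) d.hC4
        (fun p hp _ d1 d2 => no_common hgh p hp d1 d2) hMN
      have hcr := (d.hcrit H K D hH0 hK0 hD0 ⟨a1, ha1⟩ ⟨c1, hc1⟩ ⟨b1, hb1⟩ L3).2.1 hAo hDo L1 L2
      obtain ⟨t', ht'⟩ : (4 : ℤ) ∣ t := by omega
      rcases hparg with ⟨hge, hho⟩ | ⟨hgo, hhe⟩
      · -- `g` even: `v ≡ -u`
        obtain ⟨z, hz⟩ : (2 : ℤ) ∣ g := by omega
        have e1 : v + u = 8 * (D * z ^ 2) := by rw [k1, hz]; ring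
        have hKH : K % 8 = (-H) % 8 :=
          oddpart K P (-H) N (D * z ^ 2) (by linarith) (by omega) hNo
        have h5 : D * h ^ 2 = -u + 4 * (D * z ^ 2) := by linarith
        have h6 := sq_odd h hho
        have h7 : (D * h ^ 2) % 4 = D % 4 := by
          rw [Int.mul_emod, show h ^ 2 % 4 = 1 by omega]; omega
        exact hcr (Or.inr hKH) (by omega)
      · obtain ⟨z, hz⟩ : (2 : ℤ) ∣ h := by omega
        have e1 : v - u = 8 * (D * z ^ 2) := by rw [k2, hz]; ring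
        have hKH : K % 8 = H % 8 :=
          oddpart K P H M (D * z ^ 2) (by linarith) hHo hMo
        have h5 : D * g ^ 2 = u + 4 * (D * z ^ 2) := by linarith
        have h6 := sq_odd g hgo
        have h7 : (D * g ^ 2) % 4 = D % 4 := by
          rw [Int.mul_emod, show g ^ 2 % 4 = 1 by omega]; omega
        exact hcr (Or.inl hKH) (by omega)
    · -- `A` even
      have hH4 : H % 4 = 0 := by
        have h5 : (4 : ℤ) ∣ a1 * H := by
          rw [mul_comm, ← ha1]; exact Int.dvd_of_emod_eq_zero hA4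
        have h6 := (coprime_four ha1o).dvd_of_dvd_mul_left h5
        omega
      have hu4 : u % 4 = 0 := by
        have h5 : (H * M ^ 2) % 4 = 0 := by rw [Int.mul_emod, hH4]; simp
        omega
      obtain ⟨D, b1, G, L, hD0, hb1, hDu, hb1o, hG, hL, hGo, hLo, hGL, k1, k2, hbsn⟩ :=
        param_even B s u v d.hB hs hu hso hu4 (fun h => by omega) (gcd_su hst h1) hv h3
      obtain ⟨L1, L2, L3⟩ := locals 1 1 A B C s t u v H K D M N P Q G L (Or.inl rfl) h1 h2 h3
        (by rw [k1]; ring) (by rw [k2]; ring) (by rw [one_mul]; exact k3)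
        (by rw [one_mul]; exact k4) (by rw [one_mul]; exact k5) (by rw [one_mul]; exact k6) d.hC4
        hGL hMN
      have hAH : A / H = a1 := Int.ediv_eq_of_eq_mul_right hH0.ne' ha1
      have hcr := (d.hcrit H K D hH0 hK0 hD0 ⟨a1, ha1⟩ ⟨c1, hc1⟩ ⟨b1, hb1⟩ L3).2.2 (by omega)
        (by rw [hAH]; exact ha1o) L1 L2
      apply hcr
      have hG2 := sq_odd G hGo
      have h5 : D * G ^ 2 = K * P ^ 2 + H * N ^ 2 := by linarith
      have h6 : (D * G ^ 2) % 8 = D % 8 := by rw [Int.mul_emod, hG2]; omega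
      have h7 : (K * P ^ 2) % 8 = K % 8 := by rw [Int.mul_emod, hP2]; omega
      have h8 : (H * N ^ 2) % 8 = H % 8 := by rw [Int.mul_emod, hN2]; omega
      omega
  obtain ⟨hHA, hKC⟩ := hgoal
  have hc11 : c1 = 1 := by
    rw [hKC] at hc1
    have : C * c1 = C * 1 := by linarith
    exact mul_left_cancel₀ d.hCp.ne' this
  refine ⟨P, Q, hP, hQ, by rw [← hHA]; exact hHt, by rw [← hKC]; exact hKt, ?_, ?_, ?_⟩
  · rw [k5, hKC]
  · rw [k6, hKC]
  · rw [← hcsn, hc11, one_mul]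

/-- One step of the descent. -/
lemma step {A B C s t u v : ℤ} (d : Dat A B C) (hs : 0 < s) (ht : 0 < t)
    (hst : Int.gcd s t = 1) (hu : 0 < u) (hv : 0 < v)
    (h1 : t ^ 2 + A ^ 2 * s ^ 2 = u ^ 2) (h2 : t ^ 2 + C ^ 2 * s ^ 2 = v ^ 2) :
    ∃ s' t' u' v' : ℤ, 0 < s' ∧ s' < s ∧ 0 < t' ∧ t' ^ 2 + A ^ 2 * s' ^ 2 = u' ^ 2 ∧
      t' ^ 2 + C ^ 2 * s' ^ 2 = v' ^ 2 := by
  have hA := d.hA
  have hC := d.hCp
  have hCo := d.oddC
  by_cases hse : s % 2 = 0
  · obtain ⟨m, n, p', q', g, hm, hn, hp', hq', hg, k3, k4, k5, k6, k1⟩ :=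
      p1core d hs hst hu hv hse h1 h2
    obtain ⟨w, hw⟩ : ∃ w, s = 2 * w := ⟨s / 2, by omega⟩
    have hw0 : 0 < w := by omega
    have ha2 : A * w = m * n := by
      have h3 : (A * s) ^ 2 = (2 * (m * n)) ^ 2 := by
        have : (A * s) ^ 2 = (u + t) * (u - t) := by linarith
        rw [this, k3, k4]; ring
      have h4 := (sq_eq_sq₀ (by positivity) (by positivity)).mp h3
      rw [hw] at h4
      linarith
    have hb2 : C * w = p' * q' := by
      have h3 : (C * s) ^ 2 = (2 * (p' * q')) ^ 2 := by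
        have : (C * s) ^ 2 = (v + t) * (v - t) := by linarith
        rw [this, k5, k6]; ring
      have h4 := (sq_eq_sq₀ (by positivity) (by positivity)).mp h3
      rw [hw] at h4
      linarith
    have hg1 : g ^ 2 = p' ^ 2 + n ^ 2 := by linarith
    have hg2 : g ^ 2 = m ^ 2 + q' ^ 2 := by linarith
    refine ⟨w, m * p', m * g, p' * g, hw0, by omega, by positivity, ?_, ?_⟩
    · have : A ^ 2 * w ^ 2 = (m * n) ^ 2 := by rw [← ha2]; ring
      rw [this, mul_pow m g, hg1]; ring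
    · have : C ^ 2 * w ^ 2 = (p' * q') ^ 2 := by rw [← hb2]; ring
      rw [this, mul_pow p' g, hg2]; ring
  · have hso : s % 2 = 1 := by omega
    have hs2 := sq_odd s hso
    have ht4 : t % 4 = 0 := by
      have hc2 := mul_odd_sq C s hCo hs2
      have hv2 := sq_cases v
      have h3 : t % 2 = 1 ∨ t % 4 = 0 ∨ t % 4 = 2 := by omega
      rcases h3 with h3 | h3 | h3
      · have := sq_odd t h3
        omega
      · exact h3
      · have := sq_two t h3
        omega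
    obtain ⟨P, Q, hP, hQ, hat, hct, k5, k6, hsPQ⟩ :=
      p2core d (by rcases d.hpar with h | h <;> omega) hs ht hst hu hv hso ht4 h1 h2
    have hcac : IsCoprime A C := by
      rw [Int.isCoprime_iff_gcd_eq_one]
      by_contra hne
      obtain ⟨p, hp1, d1, d2⟩ := prime_of_gcd hne
      exact d.hcop p hp1 d1 d2
    obtain ⟨t0, ht0⟩ : A * C ∣ t := hcac.mul_dvd hat hct
    have ht00 : 0 < t0 := by
      rw [ht0] at ht; exact (mul_pos_iff_of_pos_left (by positivity)).mp ht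
    obtain ⟨v0, hv0⟩ : C ∣ v := by
      have : C ^ 2 ∣ v ^ 2 := ⟨A ^ 2 * t0 ^ 2 + s ^ 2, by rw [← h2, ht0]; ring⟩
      exact (Int.pow_dvd_pow_iff (by norm_num)).mp this
    obtain ⟨u0, hu0⟩ : A ∣ u := by
      have : A ^ 2 ∣ u ^ 2 := ⟨C ^ 2 * t0 ^ 2 + s ^ 2, by rw [← h1, ht0]; ring⟩
      exact (Int.pow_dvd_pow_iff (by norm_num)).mp this
    have hv00 : 0 < v0 := by rw [hv0] at hv; exact (mul_pos_iff_of_pos_left hC).mp hv
    have hu00 : 0 < u0 := by rw [hu0] at hu; exact (mul_pos_iff_of_pos_left hA).mp hu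
    have e1 : s ^ 2 + A ^ 2 * t0 ^ 2 = v0 ^ 2 := by
      have hb2 : C ^ 2 ≠ 0 := by positivity
      apply mul_left_cancel₀ hb2
      rw [hv0, ht0] at h2
      linear_combination h2
    have e2 : s ^ 2 + C ^ 2 * t0 ^ 2 = u0 ^ 2 := by
      have ha2 : A ^ 2 ≠ 0 := by positivity
      apply mul_left_cancel₀ ha2
      rw [hu0, ht0] at h1
      linear_combination h1
    have ht0e : t0 % 2 = 0 := by
      by_contra hne
      have h3 : t0 % 2 = 1 := by omega
      have h4 := sq_odd t0 h3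
      have h5 := mul_odd_sq C t0 hCo h4
      have h6 := sq_cases u0
      omega
    have hst0 : Int.gcd t0 s = 1 := by
      rw [← Int.isCoprime_iff_gcd_eq_one]
      have : IsCoprime s t := Int.isCoprime_iff_gcd_eq_one.mpr hst
      rw [ht0] at this
      exact this.of_mul_right_right.symm
    obtain ⟨m, n, p', q', g, hm, hn, hp', hq', hg, c3, c4, c5, c6, c1⟩ :=
      p1core d ht00 hst0 hv00 hu00 ht0e e1 e2
    obtain ⟨w, hw⟩ : ∃ w, t0 = 2 * w := ⟨t0 / 2, by omega⟩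
    have hw0 : 0 < w := by omega
    have ha2 : A * w = m * n := by
      have h3 : (A * t0) ^ 2 = (2 * (m * n)) ^ 2 := by
        have : (A * t0) ^ 2 = (v0 + s) * (v0 - s) := by linarith
        rw [this, c3, c4]; ring
      have h4 := (sq_eq_sq₀ (by positivity) (by positivity)).mp h3
      rw [hw] at h4
      linarith
    have hb2 : C * w = p' * q' := by
      have h3 : (C * t0) ^ 2 = (2 * (p' * q')) ^ 2 := by
        have : (C * t0) ^ 2 = (u0 + s) * (u0 - s) := by linarith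
        rw [this, c5, c6]; ring
      have h4 := (sq_eq_sq₀ (by positivity) (by positivity)).mp h3
      rw [hw] at h4
      linarith
    have hg1 : g ^ 2 = p' ^ 2 + n ^ 2 := by linarith
    have hg2 : g ^ 2 = m ^ 2 + q' ^ 2 := by linarith
    have hkey : m ^ 2 * ((A * p') ^ 2 + C ^ 2 * n ^ 2) = (A * p' * g) ^ 2 := by
      have e3 : (m * n) ^ 2 = (A * w) ^ 2 := by rw [ha2]
      have e4 : (C * w) ^ 2 = (p' * q') ^ 2 := by rw [hb2]
      calc m ^ 2 * ((A * p') ^ 2 + C ^ 2 * n ^ 2)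
            = A ^ 2 * p' ^ 2 * m ^ 2 + C ^ 2 * (m * n) ^ 2 := by ring
        _ = A ^ 2 * p' ^ 2 * m ^ 2 + A ^ 2 * (C * w) ^ 2 := by rw [e3]; ring
        _ = A ^ 2 * p' ^ 2 * (m ^ 2 + q' ^ 2) := by rw [e4]; ring
        _ = (A * p' * g) ^ 2 := by rw [← hg2]; ring
    obtain ⟨r, hr⟩ : m ∣ A * p' * g := by
      have : m ^ 2 ∣ (A * p' * g) ^ 2 := ⟨_, hkey.symm⟩
      exact (Int.pow_dvd_pow_iff (by norm_num)).mp this
    refine ⟨n, A * p', A * g, r, hn, ?_, by positivity, ?_, ?_⟩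
    · have h3 : 2 * v0 = P ^ 2 + Q ^ 2 := by
        have h4 : C * (2 * v0) = C * (P ^ 2 + Q ^ 2) := by
          rw [hv0] at k5 k6
          linear_combination k5 + k6
        exact mul_left_cancel₀ hC.ne' h4
      have h5 : (2 * n) ^ 2 = (P - Q) ^ 2 := by
        have : 2 * n ^ 2 = v0 - s := c4.symm
        rw [hsPQ] at this
        linear_combination 2 * this + h3
      have h6 : P ≤ s := by rw [hsPQ]; nlinarith
      have h7 : Q ≤ s := by rw [hsPQ]; nlinarith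
      rcases sq_eq_sq_iff_eq_or_eq_neg.mp h5 with h8 | h8 <;> omega
    · rw [mul_pow A g, hg1]; ring
    · have hm2 : m ^ 2 ≠ 0 := by positivity
      apply mul_left_cancel₀ hm2
      rw [hkey, hr]; ring

/-- No positive solutions. -/
theorem no_solution {A B C : ℤ} (d : Dat A B C) :
    ∀ N : ℕ, ∀ s t u v : ℤ, 0 < s → 0 < t → s < N → t ^ 2 + A ^ 2 * s ^ 2 = u ^ 2 →
      t ^ 2 + C ^ 2 * s ^ 2 = v ^ 2 → False := by
  intro N
  induction N with
  | zero => intro s t u v hs _ hN; simp at hN; omega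
  | succ N ih =>
    intro s t u v hs ht hN h1 h2
    obtain ⟨e, he⟩ : ∃ e : ℤ, e = (Int.gcd s t : ℤ) := ⟨_, rfl⟩
    have hep : 0 < e := by
      rw [he]
      have : 0 < Int.gcd s t := Int.gcd_pos_of_ne_zero_left _ hs.ne'
      exact_mod_cast this
    obtain ⟨s1, hs1⟩ : e ∣ s := by rw [he]; exact Int.gcd_dvd_left s t
    obtain ⟨t1, ht1⟩ : e ∣ t := by rw [he]; exact Int.gcd_dvd_right s t
    have hs1p : 0 < s1 := by rw [hs1] at hs; exact (mul_pos_iff_of_pos_left hep).mp hs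
    have ht1p : 0 < t1 := by rw [ht1] at ht; exact (mul_pos_iff_of_pos_left hep).mp ht
    have hgcd : Int.gcd s1 t1 = 1 := gcd_div he hs hs1 ht1
    have hd2 : e ^ 2 ≠ 0 := by positivity
    obtain ⟨u1, hu1⟩ : e ∣ u := by
      have : e ^ 2 ∣ u ^ 2 := ⟨t1 ^ 2 + A ^ 2 * s1 ^ 2, by rw [← h1, hs1, ht1]; ring⟩
      exact (Int.pow_dvd_pow_iff (by norm_num)).mp this
    obtain ⟨v1, hv1⟩ : e ∣ v := by
      have : e ^ 2 ∣ v ^ 2 := ⟨t1 ^ 2 + C ^ 2 * s1 ^ 2, by rw [← h2, hs1, ht1]; ring⟩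
      exact (Int.pow_dvd_pow_iff (by norm_num)).mp this
    have h1' : t1 ^ 2 + A ^ 2 * s1 ^ 2 = |u1| ^ 2 := by
      rw [sq_abs]
      apply mul_left_cancel₀ hd2
      rw [hu1, hs1, ht1] at h1
      linear_combination h1
    have h2' : t1 ^ 2 + C ^ 2 * s1 ^ 2 = |v1| ^ 2 := by
      rw [sq_abs]
      apply mul_left_cancel₀ hd2
      rw [hv1, hs1, ht1] at h2
      linear_combination h2
    have hu0 : 0 < |u1| := by
      rw [abs_pos]; rintro rfl; simp at h1'; nlinarith [sq_nonneg (A * s1), sq_pos_of_pos ht1p]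
    have hv0 : 0 < |v1| := by
      rw [abs_pos]; rintro rfl; simp at h2'; nlinarith [sq_nonneg (C * s1), sq_pos_of_pos ht1p]
    obtain ⟨s', t', u', v', k1, k2, k3, k4, k5⟩ := step d hs1p ht1p hgcd hu0 hv0 h1' h2'
    have hle : s1 ≤ s := by rw [hs1]; nlinarith
    refine ih s' t' u' v' k1 k3 ?_ k4 k5
    push_cast at hN
    omega

end Pool.Agent.CUBF
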