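import Pool.Agent.CUBD.Main

/-! From the two pairs of equations to cuboids of type B, Pythagorean ratios (MP_c16a21, Q2(a)). -/

set_option autoImplicit false

namespace Pool.Agent.CUBF

open Pool.Agent.CUBD (TypeB OccursB erase_eq third univ_eq)

/-- A cuboid of type B in which `b x_i = a x_j`, `a² + b² = c²`. -/
theorem no_ratioP (a b c : ℕ) (ha : 0 < a) (hcop : Nat.Coprime a b)
    (hc : a ^ 2 + b ^ 2 = c ^ 2)
    (h1 : ∀ s t : ℕ, 0 < s → 0 < t →
      ¬ (IsSquare (t ^ 2 + a ^ 2 * s ^ 2) ∧ IsSquare (t ^ 2 + c ^ 2 * s ^ 2)))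
    (h2 : ∀ s t : ℕ, 0 < s → 0 < t →
      ¬ (IsSquare (t ^ 2 + b ^ 2 * s ^ 2) ∧ IsSquare (t ^ 2 + c ^ 2 * s ^ 2)))
    (x : Fin 3 → ℕ) (hx : TypeB x) (i j : Fin 3) (hij : i ≠ j) (hr : b * x i = a * x j) :
    False := by
  obtain ⟨hpos, hz, i₀, hn, hsq⟩ := hx
  obtain ⟨k, hik, hjk⟩ := third i j hij
  obtain ⟨s, hs⟩ : a ∣ x i := by
    have : a ∣ b * x i := ⟨x j, hr⟩
    exact hcop.dvd_of_dvd_mul_left this
  have hy : x j = b * s := by
    apply Nat.eq_of_mul_eq_mul_left ha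
    rw [← hr, hs]; ring
  have hs0 : 0 < s := by
    rcases Nat.eq_zero_or_pos s with h' | h'
    · have := hpos i; rw [hs, h'] at this; simp at this
    · exact h'
  have hbody : IsSquare ((x k) ^ 2 + c ^ 2 * s ^ 2) := by
    rw [univ_eq i j k hij hik hjk, Finset.sum_insert (by simp [hij, hik]), Finset.sum_pair hjk] at hz
    have e : (x k) ^ 2 + c ^ 2 * s ^ 2 = x i ^ 2 + (x j ^ 2 + x k ^ 2) := by
      rw [← hc, hs, hy]; ring
    rw [e]; exact hz
  have hk : i₀ ≠ k := by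
    rintro rfl
    apply hn
    rw [erase_eq i j i₀ hij hik hjk, Finset.sum_pair hij]
    exact ⟨c * s, by rw [hs, hy]; linear_combination s ^ 2 * hc⟩
  by_cases hi : i₀ = i
  · have h3 := hsq j (by rw [hi]; exact hij.symm)
    rw [erase_eq i k j hik hij hjk.symm, Finset.sum_pair hik] at h3
    refine h1 s (x k) hs0 (hpos k) ⟨?_, hbody⟩
    have e : x k ^ 2 + a ^ 2 * s ^ 2 = x i ^ 2 + x k ^ 2 := by rw [hs]; ring
    rw [e]; exact h3
  · have h3 := hsq i (Ne.symm hi)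
    rw [erase_eq j k i hjk hij.symm hik.symm, Finset.sum_pair hjk] at h3
    refine h2 s (x k) hs0 (hpos k) ⟨?_, hbody⟩
    have e : x k ^ 2 + b ^ 2 * s ^ 2 = x j ^ 2 + x k ^ 2 := by rw [hy]; ring
    rw [e]; exact h3

/-- If `a² + b² = c²` and neither pair of equations has a solution, the ratios `a/b`, `b/a` do not
occur for type B. -/
theorem wrapP (a b c : ℕ) (ha : 0 < a) (hb : 0 < b) (hcop : Nat.Coprime a b)
    (hc : a ^ 2 + b ^ 2 = c ^ 2)
    (h1 : ∀ s t : ℕ, 0 < s → 0 < t →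
      ¬ (IsSquare (t ^ 2 + a ^ 2 * s ^ 2) ∧ IsSquare (t ^ 2 + c ^ 2 * s ^ 2)))
    (h2 : ∀ s t : ℕ, 0 < s → 0 < t →
      ¬ (IsSquare (t ^ 2 + b ^ 2 * s ^ 2) ∧ IsSquare (t ^ 2 + c ^ 2 * s ^ 2))) :
    ¬ OccursB ((a : ℚ) / b) ∧ ¬ OccursB ((b : ℚ) / a) := by
  have ha0 : (a : ℚ) ≠ 0 := by positivity
  have hb0 : (b : ℚ) ≠ 0 := by positivity
  constructor
  · rintro ⟨x, hx, i, j, hij, hr⟩
    have hj : (x j : ℚ) ≠ 0 := by
      have := hx.1 j
      positivity
    rw [div_eq_div_iff hj hb0] at hr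
    have h' : b * x i = a * x j := by
      have : (b : ℚ) * x i = a * x j := by linarith
      exact_mod_cast this
    exact no_ratioP a b c ha hcop hc h1 h2 x hx i j hij h'
  · rintro ⟨x, hx, i, j, hij, hr⟩
    have hj : (x j : ℚ) ≠ 0 := by
      have := hx.1 j
      positivity
    rw [div_eq_div_iff hj ha0] at hr
    have h' : b * x j = a * x i := by
      have : (b : ℚ) * x j = a * x i := by linarith
      exact_mod_cast this
    exact no_ratioP a b c ha hcop hc h1 h2 x hx j i hij.symm h'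

end Pool.Agent.CUBF
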