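import Pool.Agent.CUBF.Ex
import Pool.Agent.CUBF.Two
import Pool.Agent.CUBF.Wrap

/-! Excluded Pythagorean ratios for type B (MP_c16a21, Q2(a)). -/

set_option autoImplicit false

namespace Pool.Agent.CUBF

open Pool.Agent.CUBD Pool.Agent.CUBE

lemma nosol_nat (A B C : ℕ) (d : Dat (A : ℤ) B C) :
    ∀ s t : ℕ, 0 < s → 0 < t →
      ¬ (IsSquare (t ^ 2 + A ^ 2 * s ^ 2) ∧ IsSquare (t ^ 2 + C ^ 2 * s ^ 2)) := by
  rintro s t hs ht ⟨⟨u, hu⟩, ⟨v, hv⟩⟩
  refine no_solution d (s + 1) (s : ℤ) t u v (by exact_mod_cast hs) (by exact_mod_cast ht)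
    (by push_cast; omega) ?_ ?_
  · have : ((t ^ 2 + A ^ 2 * s ^ 2 : ℕ) : ℤ) = ((u * u : ℕ) : ℤ) := by rw [hu]
    push_cast at this
    rw [this]; ring
  · have : ((t ^ 2 + C ^ 2 * s ^ 2 : ℕ) : ℤ) = ((v * v : ℕ) : ℤ) := by rw [hv]
    push_cast at this
    rw [this]; ring

lemma primes_of_c (a b c : ℕ) (hcop : Nat.Coprime a b) (hc : a ^ 2 + b ^ 2 = c ^ 2)
    (hodd : c % 2 = 1) (p : ℕ) (hp : p.Prime) (h : p ∣ c) : p % 4 = 1 := by
  have h1 : IsSquare (-1 : ZMod (c ^ 2)) :=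
    ZMod.isSquare_neg_one_of_eq_sq_add_sq_of_coprime hc.symm hcop
  have h2 : IsSquare (-1 : ZMod p) :=
    ZMod.isSquare_neg_one_of_dvd (dvd_pow h two_ne_zero) h1
  haveI := Fact.mk hp
  have h3 : p % 4 ≠ 3 := ZMod.exists_sq_eq_neg_one_iff.mp h2
  have h4 : p ≠ 2 := by
    rintro rfl
    omega
  have h5 := hp.eq_two_or_odd
  omega

lemma mkDat (a b c : ℕ) (ha : 0 < a) (hb : 0 < b) (hcop : Nat.Coprime a b)
    (hc : a ^ 2 + b ^ 2 = c ^ 2)
    (hpar : a % 2 = 1 ∧ b % 4 = 0 ∨ a % 4 = 0 ∧ b % 2 = 1) (h16 : ¬ 16 ∣ a)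
    (hcrit : CritB a b c) : Dat (a : ℤ) b c := by
  have hodd : c % 2 = 1 := by
    by_contra hne
    have h1 : c ^ 2 % 2 = 0 := by
      obtain ⟨k, hk⟩ : ∃ k, c = 2 * k := ⟨c / 2, by omega⟩
      rw [hk, show (2 * k) ^ 2 = 2 * (2 * k ^ 2) by ring]; omega
    rw [← hc, Nat.add_mod, Nat.pow_mod, Nat.pow_mod b] at h1
    rcases hpar with ⟨h2, h3⟩ | ⟨h2, h3⟩
    · rw [h2, show b % 2 = 0 by omega] at h1; norm_num at h1
    · rw [h3, show a % 2 = 0 by omega] at h1; norm_num at h1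
  refine ⟨by exact_mod_cast ha, by exact_mod_cast hb, ?_, by exact_mod_cast hc, ?_, ?_, ?_, ?_,
    hcrit⟩
  · have : 0 < c := by omega
    exact_mod_cast this
  · rcases hpar with ⟨h2, h3⟩ | ⟨h2, h3⟩
    · left; constructor <;> omega
    · right; constructor <;> omega
  · intro h; exact h16 (by exact_mod_cast h)
  · intro p hp h
    exact primes_of_c a b c hcop hc hodd p hp (by exact_mod_cast h)
  · intro p hp h1 h2
    have h1' : p ∣ a := by exact_mod_cast h1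
    have h2' : p ∣ c := by exact_mod_cast h2
    have h3 : p ∣ b := by
      have h4 : p ∣ b ^ 2 := by
        have h5 : p ∣ a ^ 2 + b ^ 2 := by rw [hc]; exact dvd_pow h2' two_ne_zero
        exact (Nat.dvd_add_right (dvd_pow h1' two_ne_zero)).mp h5
      exact hp.dvd_of_dvd_pow h4
    exact hp.one_lt.ne' (Nat.eq_one_of_dvd_coprimes hcop h1' h3)

/-- The exclusion criterion for Pythagorean ratios, type B. -/
theorem excludedP (a b c : ℕ) (ha2 : a % 2 = 1) (hb : 0 < b) (hb4 : 4 ∣ b) (hb16 : ¬ 16 ∣ b)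
    (hcop : Nat.Coprime a b) (hc : a ^ 2 + b ^ 2 = c ^ 2)
    (h1 : CritB a b c) (h2 : CritB b a c) :
    ¬ OccursB ((a : ℚ) / b) ∧ ¬ OccursB ((b : ℚ) / a) := by
  have ha : 0 < a := by omega
  refine wrapP a b c ha hb hcop hc
    (nosol_nat a b c (mkDat a b c ha hb hcop hc (Or.inl ⟨ha2, by omega⟩) (by omega) h1))
    (nosol_nat b a c (mkDat b a c hb ha hcop.symm (by rw [← hc]; ring)
      (Or.inr ⟨by omega, ha2⟩) hb16 h2))

theorem mainP :
    (∀ a b c : ℕ, a % 2 = 1 → 0 < b → 4 ∣ b → ¬ 16 ∣ b → Nat.Coprime a b →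
      a ^ 2 + b ^ 2 = c ^ 2 → CritB a b c → CritB b a c →
      ¬ OccursB ((a : ℚ) / b) ∧ ¬ OccursB ((b : ℚ) / a)) ∧
      (¬ OccursB (5 / 12) ∧ ¬ OccursB (12 / 5)) ∧
      (¬ OccursB (143 / 24) ∧ ¬ OccursB (24 / 143)) ∧
      (¬ OccursB (221 / 60) ∧ ¬ OccursB (60 / 221)) := by
  refine ⟨fun a b c h1 h2 h3 h4 h5 h6 h7 h8 => excludedP a b c h1 h2 h3 h4 h5 h6 h7 h8,
    ?_, ?_, ?_⟩
  · exact_mod_cast excludedP 5 12 13 (by norm_num) (by norm_num) (by norm_num) (by norm_num)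
      (by norm_num) (by norm_num) (by exact_mod_cast crit_5_12) (by exact_mod_cast crit_12_5)
  · exact_mod_cast excludedP 143 24 145 (by norm_num) (by norm_num) (by norm_num) (by norm_num)
      (by norm_num) (by norm_num) (by exact_mod_cast crit_143_24) (by exact_mod_cast crit_24_143)
  · exact_mod_cast excludedP 221 60 229 (by norm_num) (by norm_num) (by norm_num) (by norm_num)
      (by norm_num) (by norm_num) (by exact_mod_cast crit_221_60) (by exact_mod_cast crit_60_221)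

end Pool.Agent.CUBF
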