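import Pool.Agent.CUBE.P2

/-! Local conditions for `t² + A² s² = u²`, `t² + C² s² = v²`, `C² = A² + B²` (MP_c16a21, type B,
Pythagorean ratios). -/

set_option autoImplicit false

namespace Pool.Agent.CUBF

open Pool.Agent.CUBD Pool.Agent.CUBE

/-- The local conditions at the odd primes. -/
lemma locals (ε ζ A B C s t u v H K D m n p' q' g h : ℤ) (hε : ε = 1 ∨ ε = 2)
    (h1 : t ^ 2 + A ^ 2 * s ^ 2 = u ^ 2) (h2 : t ^ 2 + C ^ 2 * s ^ 2 = v ^ 2)
    (h3 : u ^ 2 + B ^ 2 * s ^ 2 = v ^ 2)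
    (k1 : v + u = ε * (ζ * D * g ^ 2)) (k2 : v - u = ε * (ζ * D * h ^ 2))
    (k3 : u + t = ε * (H * m ^ 2)) (k4 : u - t = ε * (H * n ^ 2))
    (k5 : v + t = ε * (K * p' ^ 2)) (k6 : v - t = ε * (K * q' ^ 2))
    (hC : ∀ p : ℕ, p.Prime → (p : ℤ) ∣ C → p % 4 = 1)
    (hgh : ∀ p : ℕ, p.Prime → p ≠ 2 → (p : ℤ) ∣ g → (p : ℤ) ∣ h → False)
    (hmn : ∀ p : ℕ, p.Prime → p ≠ 2 → (p : ℤ) ∣ m → (p : ℤ) ∣ n → False) :
    (∀ p : ℕ, p.Prime → p ≠ 2 → (p : ℤ) ∣ A → IsSquare ((K * (ζ * D) : ℤ) : ZMod p)) ∧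
      (∀ p : ℕ, p.Prime → (p : ℤ) ∣ C → IsSquare ((H * (ζ * D) : ℤ) : ZMod p)) ∧
      ∀ p : ℕ, p.Prime → p % 4 = 1 → (p : ℤ) ∣ B → IsSquare ((K * H : ℤ) : ZMod p) := by
  have heps : ∀ p : ℕ, p.Prime → p ≠ 2 → (ε : ZMod p) ≠ 0 := by
    intro p hp hp2
    have : Fact p.Prime := ⟨hp⟩
    rcases hε with h | h
    · rw [h]; simp
    · rw [h]
      intro h0
      have : ((2 : ℕ) : ZMod p) = 0 := by exact_mod_cast h0
      rw [ZMod.natCast_eq_zero_iff] at this
      exact hp2 ((Nat.prime_dvd_prime_iff_eq hp Nat.prime_two).mp this)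
  have hghz : ∀ p : ℕ, p.Prime → p ≠ 2 → (g : ZMod p) ≠ 0 ∨ (h : ZMod p) ≠ 0 := by
    intro p hp hp2
    by_contra hcon
    push Not at hcon
    exact hgh p hp hp2 ((ZMod.intCast_zmod_eq_zero_iff_dvd _ p).mp hcon.1)
      ((ZMod.intCast_zmod_eq_zero_iff_dvd _ p).mp hcon.2)
  have hmnz : ∀ p : ℕ, p.Prime → p ≠ 2 → (m : ZMod p) ≠ 0 ∨ (n : ZMod p) ≠ 0 := by
    intro p hp hp2
    by_contra hcon
    push Not at hcon
    exact hmn p hp hp2 ((ZMod.intCast_zmod_eq_zero_iff_dvd _ p).mp hcon.1)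
      ((ZMod.intCast_zmod_eq_zero_iff_dvd _ p).mp hcon.2)
  refine ⟨?_, ?_, ?_⟩
  · intro p hp hp2 hpA
    have : Fact p.Prime := ⟨hp⟩
    have hε0 := heps p hp hp2
    have hAz : (A : ZMod p) = 0 := (ZMod.intCast_zmod_eq_zero_iff_dvd _ p).mpr hpA
    have htu' : (t : ZMod p) ^ 2 = (u : ZMod p) ^ 2 := by
      have := congrArg (fun x : ℤ => (x : ZMod p)) h1
      push_cast at this
      rw [hAz] at this
      linear_combination this
    have K1 := congrArg (fun x : ℤ => (x : ZMod p)) k1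
    have K2 := congrArg (fun x : ℤ => (x : ZMod p)) k2
    have K5 := congrArg (fun x : ℤ => (x : ZMod p)) k5
    have K6 := congrArg (fun x : ℤ => (x : ZMod p)) k6
    push_cast at K1 K2 K5 K6
    push_cast
    rcases sq_eq_sq_iff_eq_or_eq_neg.mp htu' with hh | hh
    · refine isSquare_of p _ g h (K * p') (K * q') ?_ ?_ (hghz p hp hp2)
      · apply mul_left_cancel₀ hε0
        linear_combination (K : ZMod p) * (-K1 + K5 - hh)
      · apply mul_left_cancel₀ hε0
        linear_combination (K : ZMod p) * (-K2 + K6 + hh)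
    · refine isSquare_of p _ g h (K * q') (K * p') ?_ ?_ (hghz p hp hp2)
      · apply mul_left_cancel₀ hε0
        linear_combination (K : ZMod p) * (-K1 + K6 + hh)
      · apply mul_left_cancel₀ hε0
        linear_combination (K : ZMod p) * (-K2 + K5 - hh)
  · intro p hp hpC
    have : Fact p.Prime := ⟨hp⟩
    have hp4 := hC p hp hpC
    have hp2 : p ≠ 2 := by omega
    have hε0 := heps p hp hp2
    obtain ⟨i, hi⟩ : IsSquare (-1 : ZMod p) := ZMod.exists_sq_eq_neg_one_iff.mpr (by omega)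
    have hCz : (C : ZMod p) = 0 := (ZMod.intCast_zmod_eq_zero_iff_dvd _ p).mpr hpC
    have htv' : (t : ZMod p) ^ 2 = (v : ZMod p) ^ 2 := by
      have := congrArg (fun x : ℤ => (x : ZMod p)) h2
      push_cast at this
      rw [hCz] at this
      linear_combination this
    have K1 := congrArg (fun x : ℤ => (x : ZMod p)) k1
    have K2 := congrArg (fun x : ℤ => (x : ZMod p)) k2
    have K3 := congrArg (fun x : ℤ => (x : ZMod p)) k3
    have K4 := congrArg (fun x : ℤ => (x : ZMod p)) k4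
    push_cast at K1 K2 K3 K4
    push_cast
    rcases sq_eq_sq_iff_eq_or_eq_neg.mp htv' with hh | hh
    · refine isSquare_of p _ g h (H * m) (i * (H * n)) ?_ ?_ (hghz p hp hp2)
      · apply mul_left_cancel₀ hε0
        linear_combination (H : ZMod p) * (-K1 + K3 - hh)
      · apply mul_left_cancel₀ hε0
        linear_combination (H : ZMod p) * (-K2 - K4 - hh) +
          (ε : ZMod p) * (H : ZMod p) ^ 2 * (n : ZMod p) ^ 2 * hi
    · refine isSquare_of p _ g h (H * n) (i * (H * m)) ?_ ?_ (hghz p hp hp2)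
      · apply mul_left_cancel₀ hε0
        linear_combination (H : ZMod p) * (-K1 + K4 + hh)
      · apply mul_left_cancel₀ hε0
        linear_combination (H : ZMod p) * (-K2 - K3 + hh) +
          (ε : ZMod p) * (H : ZMod p) ^ 2 * (m : ZMod p) ^ 2 * hi
  · intro p hp hp4 hpB
    have : Fact p.Prime := ⟨hp⟩
    have hp2 : p ≠ 2 := by omega
    have hε0 := heps p hp hp2
    obtain ⟨i, hi⟩ : IsSquare (-1 : ZMod p) := ZMod.exists_sq_eq_neg_one_iff.mpr (by omega)
    have hBz : (B : ZMod p) = 0 := (ZMod.intCast_zmod_eq_zero_iff_dvd _ p).mpr hpB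
    have huv' : (v : ZMod p) ^ 2 = (u : ZMod p) ^ 2 := by
      have := congrArg (fun x : ℤ => (x : ZMod p)) h3
      push_cast at this
      rw [hBz] at this
      linear_combination -this
    have K3 := congrArg (fun x : ℤ => (x : ZMod p)) k3
    have K4 := congrArg (fun x : ℤ => (x : ZMod p)) k4
    have K5 := congrArg (fun x : ℤ => (x : ZMod p)) k5
    have K6 := congrArg (fun x : ℤ => (x : ZMod p)) k6
    push_cast at K3 K4 K5 K6
    push_cast
    rcases sq_eq_sq_iff_eq_or_eq_neg.mp huv' with hh | hh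
    · refine isSquare_of p _ m n (K * p') (K * q') ?_ ?_ (hmnz p hp hp2)
      · apply mul_left_cancel₀ hε0
        linear_combination (K : ZMod p) * (K5 - K3 - hh)
      · apply mul_left_cancel₀ hε0
        linear_combination (K : ZMod p) * (K6 - K4 - hh)
    · refine isSquare_of p _ m n (i * (K * q')) (i * (K * p')) ?_ ?_ (hmnz p hp hp2)
      · apply mul_left_cancel₀ hε0
        linear_combination (K : ZMod p) * (-K6 - K3 + hh) +
          (ε : ZMod p) * (K : ZMod p) ^ 2 * (q' : ZMod p) ^ 2 * hi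
      · apply mul_left_cancel₀ hε0
        linear_combination (K : ZMod p) * (-K5 - K4 + hh) +
          (ε : ZMod p) * (K : ZMod p) ^ 2 * (p' : ZMod p) ^ 2 * hi

end Pool.Agent.CUBF
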